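import Pool.Agent.Q196.NM.Cov

/-!
# Backward extension of a Fatou type parametrisation
-/

set_option autoImplicit false

open Polynomial Topology Set Filter

namespace Q196.NM

/-- A continuous lift of a differentiable function through a map with nonzero derivative is
differentiable. -/
theorem differentiableAt_lift {F G h : ℂ → ℂ} {w F' : ℂ} (hF : HasStrictDerivAt F F' (G w))
    (hF' : F' ≠ 0) (hG : ContinuousAt G w) (hh : DifferentiableAt ℂ h w)
    (heq : ∀ᶠ y in 𝓝 w, F (G y) = h y) : DifferentiableAt ℂ G w := by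
  have h1 := hF.eventually_left_inverse hF'
  have h2 : ∀ᶠ y in 𝓝 w, hF.localInverse F F' (G w) hF' (F (G y)) = G y :=
    hG.eventually h1
  have h3 : G =ᶠ[𝓝 w] fun y => hF.localInverse F F' (G w) hF' (h y) := by
    filter_upwards [h2, heq] with y hy1 hy2
    rw [← hy2, hy1]
  have h4 : HasDerivAt (hF.localInverse F F' (G w) hF') F'⁻¹ (h w) := by
    have h5 := (hF.to_localInverse hF').hasDerivAt
    rwa [heq.self_of_nhds] at h5
  exact (h4.differentiableAt.comp w hh).congr_of_eventuallyEq h3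

/-- The lifting step. -/
theorem lift_step {P D : ℂ[X]} {s H : Set ℂ} (hcov : IsCoveringMapOn (rmap P D) s)
    (hHc : Convex ℝ H) (hHo : IsOpen H) {G φ : ℂ → ℂ} (hG : ContinuousOn G H)
    (hφ : ContinuousOn φ H) (hφH : MapsTo φ H H) (hGs : MapsTo G H s)
    (hGD : ∀ w ∈ H, D.eval (G w) ≠ 0) (hGφ : ∀ w ∈ H, nmap P D (G w) = G (φ w))
    {w₀ : ℂ} (hw₀ : w₀ ∈ H) :
    ∃ G' : ℂ → ℂ, ContinuousOn G' H ∧ (∀ w ∈ H, D.eval (G' w) ≠ 0) ∧
      (∀ w ∈ H, nmap P D (G' w) = G w) ∧ (∀ w ∈ H, G' (φ w) = G w) := by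
  have hne : H.Nonempty := ⟨w₀, hw₀⟩
  have : ContractibleSpace H := hHc.contractibleSpace hne
  have : LocallyPathConnectedSpace H := hHo.locallyPathConnectedSpace
  have cov := hcov.isCoveringMap_restrictPreimage
  have hcG : Continuous (fun w : H => (⟨G w.1, hGs w.2⟩ : s)) :=
    Continuous.subtype_mk (continuousOn_iff_continuous_domRestrict.mp hG) _
  let f : C(H, s) := ⟨fun w => ⟨G w.1, hGs w.2⟩, hcG⟩
  have hmem : ∀ w : H, (⟨G w.1, hGD w.1 w.2⟩ : {z : ℂ // D.eval z ≠ 0}) ∈ rmap P D ⁻¹' s := by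
    intro w
    simp only [mem_preimage, rmap]
    rw [hGφ w.1 w.2]
    exact hGs (hφH w.2)
  let e : H → (rmap P D ⁻¹' s : Set {z : ℂ // D.eval z ≠ 0}) := fun w =>
    ⟨⟨G w.1, hGD w.1 w.2⟩, hmem w⟩
  have hec : Continuous e :=
    Continuous.subtype_mk (Continuous.subtype_mk (continuousOn_iff_continuous_domRestrict.mp hG) _) _
  have hbase : s.restrictPreimage (rmap P D) (e ⟨w₀, hw₀⟩) = f ⟨φ w₀, hφH hw₀⟩ := by
    apply Subtype.ext
    simp only [restrictPreimage_coe, e, f, rmap, ContinuousMap.coe_mk]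
    exact hGφ w₀ hw₀
  obtain ⟨L, ⟨hL0, hL⟩, -⟩ := cov.existsUnique_continuousMap_lifts f ⟨φ w₀, hφH hw₀⟩
    (e ⟨w₀, hw₀⟩) hbase
  have hLw : ∀ w : H, nmap P D (L w).1.1 = G w.1 := by
    intro w
    have := congrFun hL w
    have h2 := congrArg Subtype.val this
    simpa [f, rmap] using h2
  -- the second identity
  have hφc : Continuous (fun w : H => (⟨φ w.1, hφH w.2⟩ : H)) :=
    Continuous.subtype_mk (continuousOn_iff_continuous_domRestrict.mp hφ) _
  have huniq : (fun w : H => L ⟨φ w.1, hφH w.2⟩) = e := by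
    refine cov.eq_of_comp_eq (L.continuous.comp hφc) hec ?_ ⟨w₀, hw₀⟩ hL0
    funext w
    apply Subtype.ext
    simp only [Function.comp_apply, restrictPreimage_coe, e, rmap]
    rw [hGφ w.1 w.2]
    exact hLw ⟨φ w.1, hφH w.2⟩
  classical
  refine ⟨fun w => if h : w ∈ H then (L ⟨w, h⟩).1.1 else 0, ?_, ?_, ?_, ?_⟩
  · rw [continuousOn_iff_continuous_domRestrict]
    have : H.domRestrict (fun w => if h : w ∈ H then (L ⟨w, h⟩).1.1 else 0) =
        fun w : H => (L w).1.1 := by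
      funext w
      have h1 : w.1 ∈ H := w.2
      simp only [Set.domRestrict, h1, dif_pos]
    rw [this]
    exact continuous_subtype_val.comp (continuous_subtype_val.comp L.continuous)
  · intro w hw
    simp only [hw, dif_pos]
    exact (L ⟨w, hw⟩).1.2
  · intro w hw
    simp only [hw, dif_pos]
    exact hLw ⟨w, hw⟩
  · intro w hw
    have h1 := congrFun huniq ⟨w, hw⟩
    have h2 := congrArg (fun x => x.1.1) h1
    simp only [hφH hw, dif_pos]
    simpa [e] using h2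

/-- All backward lifts. -/
theorem exists_lifts {P D : ℂ[X]} {H : Set ℂ} (hD : D ≠ 0) (hdeg : P.degree ≤ D.degree)
    (hcop : ∀ z : ℂ, D.eval z = 0 → P.eval z ≠ 0)
    (hcrit : ∀ z : ℂ, D.eval z ≠ 0 → P.eval z ≠ 0 → deriv (nmap P D) z ≠ 0)
    (hHc : Convex ℝ H) (hHo : IsOpen H) {ψ φ : ℂ → ℂ} (hψ : DifferentiableOn ℂ ψ H)
    (hφ : ContinuousOn φ H) (hφH : MapsTo φ H H) (hψP : ∀ w ∈ H, P.eval (ψ w) ≠ 0)
    (hψD : ∀ w ∈ H, D.eval (ψ w) ≠ 0) (hψφ : ∀ w ∈ H, nmap P D (ψ w) = ψ (φ w))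
    {w₀ : ℂ} (hw₀ : w₀ ∈ H) (k : ℕ) :
    ∃ G : ℂ → ℂ, DifferentiableOn ℂ G H ∧ (∀ w ∈ H, D.eval (G w) ≠ 0) ∧
      (∀ w ∈ H, P.eval (G w) ≠ 0) ∧
      (∀ w ∈ H, nmap P D (G w) = G (φ w)) ∧
      (∀ w ∈ H, (nmap P D)^[k] (G w) = ψ w) ∧
      (∀ w ∈ H, G (φ^[k] w) = ψ w) := by
  have hfix : ∀ z : ℂ, D.eval z ≠ 0 → P.eval z = 0 → nmap P D z = z := by
    intro z _ hz
    simp [nmap, hz]
  have hcov : IsCoveringMapOn (rmap P D) {z : ℂ | P.eval z ≠ 0} := by
    refine isCoveringMapOn_rmap hD hdeg hcop _ fun z hz hz2 => hcrit z hz ?_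
    intro h
    apply hz2
    rw [hfix z hz h]
    exact h
  induction k with
  | zero =>
    exact ⟨ψ, hψ, hψD, hψP, hψφ, fun w _ => rfl, fun w _ => rfl⟩
  | succ k ih =>
    obtain ⟨G, hG, hGD, hGP, hGφ, hGk, hGk'⟩ := ih
    obtain ⟨G', hG', hG'D, hG'F, hG'φ⟩ := lift_step hcov hHc hHo hG.continuousOn hφ hφH
      (fun w hw => hGP w hw) hGD hGφ hw₀
    have hG'P : ∀ w ∈ H, P.eval (G' w) ≠ 0 := by
      intro w hw h
      have h1 := hfix _ (hG'D w hw) h
      rw [hG'F w hw] at h1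
      apply hGP w hw
      rw [h1]
      exact h
    refine ⟨G', ?_, hG'D, hG'P, ?_, ?_, ?_⟩
    · intro w hw
      refine DifferentiableAt.differentiableWithinAt ?_
      have hs := hasStrictDerivAt_nmap P D (hG'D w hw)
      refine differentiableAt_lift hs ?_ (hG'.continuousAt (hHo.mem_nhds hw))
        (hG.differentiableAt (hHo.mem_nhds hw)) ?_
      · rw [← hs.hasDerivAt.deriv]
        exact hcrit _ (hG'D w hw) (hG'P w hw)
      · filter_upwards [hHo.mem_nhds hw] with y hy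
        exact hG'F y hy
    · intro w hw
      rw [hG'F w hw, hG'φ w hw]
    · intro w hw
      rw [Function.iterate_succ_apply, hG'F w hw, hGk w hw]
    · intro w hw
      rw [Function.iterate_succ_apply]
      have hit : ∀ j : ℕ, ∀ w ∈ H, φ^[j] w ∈ H := by
        intro j
        induction j with
        | zero => intro w hw; exact hw
        | succ j ihj => intro w hw; rw [Function.iterate_succ_apply]; exact ihj _ (hφH hw)
      have h1 : φ^[k] (φ w) = φ (φ^[k] w) := by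
        rw [← Function.iterate_succ_apply, Function.iterate_succ_apply']
      rw [h1, hG'φ _ (hit k w hw), hGk' w hw]

end Q196.NM
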