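import Mathlib

/-!
# The Newton type map `z - P / D` as a covering map, and lifts through it
-/

set_option autoImplicit false

open Polynomial Topology Set Filter Bornology Asymptotics

namespace Q196.NM

/-- the map `z ↦ z - P(z) / D(z)` -/
noncomputable def nmap (P D : ℂ[X]) (z : ℂ) : ℂ := z - P.eval z / D.eval z

theorem hasStrictDerivAt_nmap (P D : ℂ[X]) {z : ℂ} (hz : D.eval z ≠ 0) :
    HasStrictDerivAt (nmap P D)
      (1 - ((derivative P).eval z * D.eval z - P.eval z * (derivative D).eval z) /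
        D.eval z ^ 2) z := by
  exact (hasStrictDerivAt_id z).sub ((P.hasStrictDerivAt z).div (D.hasStrictDerivAt z) hz)

theorem eventually_bound {P D : ℂ[X]} (hD : D ≠ 0) (hdeg : P.degree ≤ D.degree) :
    ∃ C R : ℝ, 0 ≤ C ∧ ∀ z : ℂ, R ≤ ‖z‖ → ‖P.eval z‖ ≤ C * ‖D.eval z‖ := by
  obtain ⟨C, hC⟩ := (isBigO_cobounded_of_degree_le hdeg).bound
  obtain ⟨R, hR⟩ := (Metric.hasBasis_cobounded_compl_closedBall (0 : ℂ)).eventually_iff.mp hC
  refine ⟨max C 0, R + 1, le_max_right _ _, fun z hz => ?_⟩
  have h1 : z ∈ (Metric.closedBall (0 : ℂ) R)ᶜ := by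
    simp only [mem_compl_iff, Metric.mem_closedBall, dist_zero_right, not_le]
    linarith
  have h2 := hR.2 h1
  exact h2.trans (mul_le_mul_of_nonneg_right (le_max_left _ _) (norm_nonneg _))

theorem isCompact_preimage {P D : ℂ[X]} (hD : D ≠ 0) (hdeg : P.degree ≤ D.degree)
    (hcop : ∀ z : ℂ, D.eval z = 0 → P.eval z ≠ 0) {K : Set ℂ} (hK : IsCompact K) :
    IsCompact {z : ℂ | D.eval z ≠ 0 ∧ nmap P D z ∈ K} := by
  have hset : {z : ℂ | D.eval z ≠ 0 ∧ nmap P D z ∈ K} =
      Prod.fst '' {p : ℂ × K | (p.1 - p.2) * D.eval p.1 = P.eval p.1} := by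
    ext z
    simp only [mem_ofPred_eq, mem_image, Prod.exists, exists_and_right, exists_eq_right]
    constructor
    · rintro ⟨h1, h2⟩
      refine ⟨⟨nmap P D z, h2⟩, ?_⟩
      simp only [nmap]
      field_simp
      ring
    · rintro ⟨x, hx⟩
      have h1 : D.eval z ≠ 0 := by
        intro h
        rw [h, mul_zero] at hx
        exact hcop z h hx.symm
      refine ⟨h1, ?_⟩
      have : nmap P D z = x := by
        simp only [nmap]
        rw [← hx]
        field_simp
        ring
      rw [this]
      exact x.2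
  have hclosed : IsClosed {z : ℂ | D.eval z ≠ 0 ∧ nmap P D z ∈ K} := by
    rw [hset]
    have : CompactSpace K := isCompact_iff_compactSpace.mp hK
    refine isClosedMap_fst_of_compactSpace _ ?_
    refine isClosed_eq ?_ ?_
    · exact (continuous_fst.sub (continuous_subtype_val.comp continuous_snd)).mul
        (D.continuous.comp continuous_fst)
    · exact P.continuous.comp continuous_fst
  obtain ⟨C, R, hC, hR⟩ := eventually_bound hD hdeg
  obtain ⟨M, hM⟩ := hK.isBounded.exists_norm_le
  refine Metric.isCompact_of_isClosed_isBounded hclosed ?_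
  refine (Metric.isBounded_closedBall (x := (0 : ℂ)) (r := max R (C + M))).subset ?_
  rintro z ⟨h1, h2⟩
  simp only [Metric.mem_closedBall, dist_zero_right]
  by_cases hz : R ≤ ‖z‖
  · refine le_trans ?_ (le_max_right _ _)
    have h3 := hR z hz
    have h4 : ‖P.eval z / D.eval z‖ ≤ C := by
      rw [norm_div, div_le_iff₀ (norm_pos_iff.mpr h1)]
      exact h3
    have h5 := hM _ h2
    have h6 : z = P.eval z / D.eval z + nmap P D z := by simp [nmap]
    calc ‖z‖ = ‖P.eval z / D.eval z + nmap P D z‖ := by rw [← h6]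
      _ ≤ ‖P.eval z / D.eval z‖ + ‖nmap P D z‖ := norm_add_le _ _
      _ ≤ C + M := add_le_add h4 h5
  · push Not at hz
    exact hz.le.trans (le_max_left _ _)

/-- the map on the complement of the zeros of `D` -/
noncomputable def rmap (P D : ℂ[X]) (z : {z : ℂ // D.eval z ≠ 0}) : ℂ := nmap P D z.1

theorem isOpen_ne (D : ℂ[X]) : IsOpen {z : ℂ | D.eval z ≠ 0} :=
  isOpen_ne_fun D.continuous continuous_const

theorem continuous_rmap (P D : ℂ[X]) : Continuous (rmap P D) := by
  rw [continuous_iff_continuousAt]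
  intro z
  exact ((hasStrictDerivAt_nmap P D z.2).hasDerivAt.continuousAt).comp
    continuous_subtype_val.continuousAt

theorem isProperMap_rmap {P D : ℂ[X]} (hD : D ≠ 0) (hdeg : P.degree ≤ D.degree)
    (hcop : ∀ z : ℂ, D.eval z = 0 → P.eval z ≠ 0) : IsProperMap (rmap P D) := by
  rw [isProperMap_iff_isCompact_preimage]
  refine ⟨continuous_rmap P D, fun K hK => ?_⟩
  rw [Subtype.isCompact_iff]
  have h := isCompact_preimage hD hdeg hcop hK
  convert h using 1
  ext z
  simp only [mem_image, mem_preimage, rmap, Subtype.exists, exists_and_left, exists_prop,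
    exists_eq_right_right, mem_ofPred_eq]
  tauto

/-- Over a set of regular values the map is a covering map. -/
theorem isCoveringMapOn_rmap {P D : ℂ[X]} (hD : D ≠ 0) (hdeg : P.degree ≤ D.degree)
    (hcop : ∀ z : ℂ, D.eval z = 0 → P.eval z ≠ 0) (s : Set ℂ)
    (hs : ∀ z : ℂ, D.eval z ≠ 0 → nmap P D z ∈ s → deriv (nmap P D) z ≠ 0) :
    IsCoveringMapOn (rmap P D) s := by
  have hloc : IsLocalHomeomorphOn (rmap P D) (rmap P D ⁻¹' s) := by
    intro z hz
    have h1 := hasStrictDerivAt_nmap P D z.2
    have h2 : (1 - ((derivative P).eval z.1 * D.eval z.1 - P.eval z.1 * (derivative D).eval z.1) /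
        D.eval z.1 ^ 2) ≠ 0 := by
      rw [← h1.hasDerivAt.deriv]
      exact hs z.1 z.2 hz
    have h3 := h1.hasStrictFDerivAt_equiv h2
    have hemb : IsOpenEmbedding (Subtype.val : {z : ℂ // D.eval z ≠ 0} → ℂ) :=
      (isOpen_ne D).isOpenEmbedding_subtypeVal
    have : Nonempty {z : ℂ // D.eval z ≠ 0} := ⟨z⟩
    refine ⟨(hemb.toOpenPartialHomeomorph _).trans (h3.toOpenPartialHomeomorph _), ?_, ?_⟩
    · simp only [OpenPartialHomeomorph.trans_source, IsOpenEmbedding.toOpenPartialHomeomorph_source,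
        univ_inter, mem_preimage]
      exact h3.mem_toOpenPartialHomeomorph_source
    · funext w
      rfl
  refine (isProperMap_rmap hD hdeg hcop).isClosedMap.isCoveringMapOn_of_isLocalHomeomorphOn ?_ hloc
  intro x hx
  have hcomp : IsCompact (rmap P D ⁻¹' {x}) :=
    (isProperMap_rmap hD hdeg hcop).isCompact_preimage isCompact_singleton
  -- the fibre is the root set of a nonzero polynomial
  have hpoly : ((X - C x) * D - P : ℂ[X]) ≠ 0 := by
    intro h
    have h1 : (X - C x) * D = P := sub_eq_zero.mp h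
    have h2 : P.degree = D.degree + 1 := by
      rw [← h1, degree_mul, degree_X_sub_C, add_comm]
    rw [h2] at hdeg
    have h3 : D.degree ≠ ⊥ := by rwa [Ne, degree_eq_bot]
    have h4 : D.degree = (D.natDegree : WithBot ℕ) := degree_eq_natDegree hD
    rw [h4] at hdeg
    have : (D.natDegree : WithBot ℕ) + 1 = ((D.natDegree + 1 : ℕ) : WithBot ℕ) := by push_cast; rfl
    rw [this, Nat.cast_le] at hdeg
    omega
  have hfin : ({z : ℂ | ((X - C x) * D - P).IsRoot z}).Finite := by
    have := ((X - C x) * D - P).roots.toFinset.finite_toSet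
    refine this.subset fun z hz => ?_
    simp only [Finset.mem_coe, Multiset.mem_toFinset]
    exact (mem_roots hpoly).mpr hz
  refine Finite.of_finite_image (f := Subtype.val) (hfin.subset ?_) Subtype.val_injective.injOn
  rintro _ ⟨z, hz, rfl⟩
  simp only [mem_preimage, mem_singleton_iff, rmap, nmap] at hz
  simp only [mem_ofPred_eq, IsRoot.def, eval_sub, eval_mul, eval_X, eval_C]
  rw [← hz]
  have := z.2
  field_simp
  ring

end Q196.NM
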