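import Mathlib

/-!
# Rational functions sharing a value with their derivative
-/

set_option autoImplicit false

open Polynomial

namespace Q196.NM

/-- The rational function `R = a (1 + P / (Q P + P'))`. -/
noncomputable def ratR (a : ℂ) (P Q : ℂ[X]) : RatFunc ℂ :=
  RatFunc.C a * (1 + algebraMap ℂ[X] (RatFunc ℂ) P /
    algebraMap ℂ[X] (RatFunc ℂ) (Q * P + derivative P))

/-- `z` is a pole of `R`: the denominator of the reduced form of `R` vanishes at `z`. -/
def IsPole (R : RatFunc ℂ) (z : ℂ) : Prop := R.denom.eval z = 0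

/-- The value of `R` at a point which is not a pole, `num / denom` for the reduced form. -/
noncomputable def value (R : RatFunc ℂ) (z : ℂ) : ℂ := R.num.eval z / R.denom.eval z

/-- `R` and `R'` share `a` in the plane: for every `z ∈ ℂ`, `R(z) = a` holds exactly when
`R'(z) = a`. (At the poles of `R` both `R` and `R'` have the value `∞`.) -/
def SharesInPlane (R : RatFunc ℂ) (a : ℂ) : Prop :=
  ∀ z : ℂ, (¬ IsPole R z ∧ value R z = a) ↔ (¬ IsPole R z ∧ deriv (value R) z = a)

/-- `R` is not constant. -/
def NonConst (R : RatFunc ℂ) : Prop := ∀ c : ℂ, R ≠ RatFunc.C c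

/-- All zeros of the polynomial `P` are simple (in particular `P ≠ 0`). -/
def SimpleZeros (P : ℂ[X]) : Prop := ∀ z : ℂ, P.eval z = 0 → (derivative P).eval z ≠ 0

end Q196.NM
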