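import Pool.Agent.Q196.NM.Petal

/-!
# A Newton map of `P exp q` always has a free critical point
-/

set_option autoImplicit false

open Polynomial Topology Set Filter Bornology Asymptotics

namespace Q196.NM

theorem exists_trap {P D : ℂ[X]} {z₁ : ℂ} (hz : P.eval z₁ = 0) (hD : D.eval z₁ ≠ 0)
    (hDP : D.eval z₁ = (derivative P).eval z₁) :
    ∃ r : ℝ, 0 < r ∧ ∀ z : ℂ, ‖z - z₁‖ ≤ r → ‖nmap P D z - z₁‖ ≤ ‖z - z₁‖ := by
  have h1 := (hasStrictDerivAt_nmap P D hD).hasDerivAt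
  have h2 : (1 - ((derivative P).eval z₁ * D.eval z₁ - P.eval z₁ * (derivative D).eval z₁) /
      D.eval z₁ ^ 2) = 0 := by
    rw [hz, ← hDP]
    field_simp
    ring
  rw [h2] at h1
  have hfix : nmap P D z₁ = z₁ := by simp [nmap, hz]
  have h3 := h1.isLittleO.bound (c := 1) one_pos
  rw [Metric.eventually_nhds_iff] at h3
  obtain ⟨ε, hε, h4⟩ := h3
  refine ⟨ε / 2, by positivity, fun z hz2 => ?_⟩
  have h5 := h4 (y := z) (by rw [dist_eq_norm]; linarith)
  rw [hfix] at h5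
  simpa using h5

theorem exists_free_critical {P Q : ℂ[X]} (hP : P ≠ 0) (hQ : Q ≠ 0)
    (hs : ∀ z : ℂ, P.eval z = 0 → (derivative P).eval z ≠ 0) {z₁ : ℂ} (hz₁ : P.eval z₁ = 0) :
    ∃ z : ℂ, (dd P Q).eval z ≠ 0 ∧ P.eval z ≠ 0 ∧ deriv (nmap P (dd P Q)) z = 0 := by
  by_contra hcon
  push Not at hcon
  set D := dd P Q with hDdef
  have hD0 : D ≠ 0 := dd_ne_zero hP hQ
  have hDP : ∀ z : ℂ, P.eval z = 0 → D.eval z = (derivative P).eval z := by
    intro z hz
    rw [hDdef, dd, eval_add, eval_mul, hz, mul_zero, zero_add]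
  have hcop : ∀ z : ℂ, D.eval z = 0 → P.eval z ≠ 0 := by
    intro z hz h
    exact hs z h (by rw [← hDP z h, hz])
  have hdeg : P.degree ≤ D.degree := by
    rw [hDdef, dd_degree hP hQ]
    exact le_add_of_nonneg_left (zero_le_degree_iff.mpr hQ)
  have hD1 : D.eval z₁ ≠ 0 := fun h => hcop z₁ h hz₁
  obtain ⟨r, hr, htrap⟩ := exists_trap hz₁ hD1 (hDP z₁ hz₁)
  obtain ⟨R₁, ψ, φ, hR₁, hψd, hφc, hφre, hφn, hψ, hψφ⟩ := exists_petal hP hQ (‖z₁‖ + r)
  set H : Set ℂ := {w : ℂ | R₁ < w.re} with hH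
  have hHo : IsOpen H := isOpen_lt continuous_const Complex.continuous_re
  have hHc : Convex ℝ H := convex_halfSpace_re_gt R₁
  have hφH : MapsTo φ H H := by
    intro w hw
    have := hφre w hw
    simp only [hH, mem_ofPred_eq] at hw ⊢
    linarith
  set w₀ : ℂ := ((R₁ + 1 : ℝ) : ℂ) with hw₀
  have hw₀H : w₀ ∈ H := by
    simp only [hH, mem_ofPred_eq, hw₀, Complex.ofReal_re]
    linarith
  -- the trap is invariant under iteration
  have htrapk : ∀ k : ℕ, ∀ z : ℂ, ‖z - z₁‖ ≤ r → ‖(nmap P D)^[k] z - z₁‖ ≤ r := by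
    intro k
    induction k with
    | zero => intro z hz; exact hz
    | succ k ih =>
      intro z hz
      rw [Function.iterate_succ_apply]
      exact ih _ ((htrap z hz).trans hz)
  have hit : ∀ j : ℕ, ∀ w ∈ H, φ^[j] w ∈ H := by
    intro j
    induction j with
    | zero => intro w hw; exact hw
    | succ j ihj => intro w hw; rw [Function.iterate_succ_apply]; exact ihj _ (hφH hw)
  have hgrow : ∀ k : ℕ, R₁ + 1 + k / 2 ≤ (φ^[k] w₀).re := by
    intro k
    induction k with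
    | zero => simp [hw₀]
    | succ k ih =>
      rw [Function.iterate_succ_apply']
      have h1 := hφre _ (hit k w₀ hw₀H)
      push_cast
      linarith
  -- the two values
  have hne : (ψ (φ w₀) - z₁)⁻¹ ≠ (ψ w₀ - z₁)⁻¹ := by
    intro h
    have h1 := inv_injective h
    have h2 : ψ (φ w₀) = ψ w₀ := by linear_combination h1
    rw [← hψφ w₀ hw₀H, nmap] at h2
    have h3 : P.eval (ψ w₀) / D.eval (ψ w₀) = 0 := by linear_combination -h2
    rcases div_eq_zero_iff.mp h3 with h4 | h4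
    · exact (hψ w₀ hw₀H).2.1 h4
    · exact (hψ w₀ hw₀H).2.2 h4
  set d₀ : ℝ := dist (ψ (φ w₀) - z₁)⁻¹ (ψ w₀ - z₁)⁻¹ with hd₀
  have hd₀pos : 0 < d₀ := dist_pos.mpr hne
  have hbound : ∀ k : ℕ, 2 ≤ k → d₀ ≤ 2 * r⁻¹ / (1 + k / 2) * (3 / 2) := by
    intro k hk
    obtain ⟨G, hGd, hGD, hGP, hGφ, hGk, hGk'⟩ := exists_lifts hD0 hdeg hcop hcon hHc hHo hψd hφc hφH
      (fun w hw => (hψ w hw).2.1) (fun w hw => (hψ w hw).2.2) hψφ hw₀H k
    have hGz : ∀ w ∈ H, r < ‖G w - z₁‖ := by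
      intro w hw
      by_contra hlt
      push Not at hlt
      have h1 := htrapk k _ hlt
      rw [hGk w hw] at h1
      have h2 := (hψ w hw).1
      have h3 : ‖ψ w‖ ≤ ‖ψ w - z₁‖ + ‖z₁‖ := by
        calc ‖ψ w‖ = ‖(ψ w - z₁) + z₁‖ := by ring_nf
          _ ≤ _ := norm_add_le _ _
      linarith
    have hGne : ∀ w ∈ H, G w - z₁ ≠ 0 := by
      intro w hw h
      have := hGz w hw
      rw [h, norm_zero] at this
      linarith
    set g : ℂ → ℂ := fun w => (G w - z₁)⁻¹ with hg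
    have hgd : DifferentiableOn ℂ g H := by
      exact (hGd.sub_const z₁).inv hGne
    have hgb : ∀ w ∈ H, ‖g w‖ ≤ r⁻¹ := by
      intro w hw
      rw [hg, norm_inv]
      exact inv_anti₀ hr (hGz w hw).le
    set c : ℂ := φ^[k] w₀ with hc
    have hcH : c ∈ H := hit k w₀ hw₀H
    set ρ : ℝ := 1 + k / 2 with hρ
    have hρ2 : 2 ≤ ρ := by
      rw [hρ]
      have : (2 : ℝ) ≤ k := by exact_mod_cast hk
      linarith
    have hball : Metric.ball c ρ ⊆ H := by
      intro u hu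
      rw [Metric.mem_ball, dist_eq_norm] at hu
      have h1 := (Complex.abs_re_le_norm (u - c)).trans_lt hu
      rw [Complex.sub_re, abs_lt] at h1
      have h2 := hgrow k
      simp only [hH, mem_ofPred_eq]
      have h3 := h1.1
      rw [hc] at h3
      linarith
    have hmaps : MapsTo g (Metric.ball c ρ) (Metric.closedBall (g c) (2 * r⁻¹)) := by
      intro u hu
      rw [Metric.mem_closedBall, dist_eq_norm]
      calc ‖g u - g c‖ ≤ ‖g u‖ + ‖g c‖ := norm_sub_le _ _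
        _ ≤ r⁻¹ + r⁻¹ := add_le_add (hgb u (hball hu)) (hgb c hcH)
        _ = 2 * r⁻¹ := by ring
    have hφc' : dist (φ c) c ≤ 3 / 2 := by
      rw [dist_eq_norm]
      exact hφn c hcH
    have hmem : φ c ∈ Metric.ball c ρ := by
      rw [Metric.mem_ball]
      linarith
    have h1 := Complex.dist_le_div_mul_dist_of_mapsTo_ball (hgd.mono hball) hmaps hmem
    have hgc : g c = (ψ w₀ - z₁)⁻¹ := by
      simp only [hg]
      rw [hc, hGk' w₀ hw₀H]
    have hgφ : g (φ c) = (ψ (φ w₀) - z₁)⁻¹ := by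
      simp only [hg]
      have : φ c = φ^[k] (φ w₀) := by
        rw [hc, ← Function.iterate_succ_apply' φ k w₀, Function.iterate_succ_apply]
      rw [this, hGk' (φ w₀) (hφH hw₀H)]
    rw [hgc, hgφ] at h1
    refine h1.trans ?_
    exact mul_le_mul_of_nonneg_left hφc' (by positivity)
  -- let `k → ∞`
  have hlim : Tendsto (fun k : ℕ => 2 * r⁻¹ / (1 + (k : ℝ) / 2) * (3 / 2)) atTop (𝓝 0) := by
    have h1 : Tendsto (fun k : ℕ => 1 + (k : ℝ) / 2) atTop atTop :=
      tendsto_atTop_add_const_left _ _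
        (tendsto_natCast_atTop_atTop.atTop_div_const (by norm_num))
    have h2 := (h1.const_div_atTop (2 * r⁻¹)).mul_const (3 / 2)
    rwa [zero_mul] at h2
  have h3 : d₀ ≤ 0 := by
    refine ge_of_tendsto hlim ?_
    filter_upwards [eventually_ge_atTop 2] with k hk
    exact hbound k hk
  linarith

end Q196.NM
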