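import Pool.Agent.Q196.NM.Defs
import Pool.Agent.Q196.NM.Dyn

/-!
# No sharing when `Q ≠ 0`
-/

set_option autoImplicit false

open Polynomial Topology Set Filter

namespace Q196.NM

theorem SimpleZeros.ne_zero {P : ℂ[X]} (h : SimpleZeros P) : P ≠ 0 := by
  rintro rfl
  exact h 0 (by simp) (by simp)

/-- cross multiplication -/
theorem cross {R : RatFunc ℂ} {p q : ℂ[X]} (hq : q ≠ 0)
    (hR : R = algebraMap ℂ[X] (RatFunc ℂ) p / algebraMap ℂ[X] (RatFunc ℂ) q) :
    R.num * q = p * R.denom := by
  have h1 := R.num_div_denom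
  have hq' : algebraMap ℂ[X] (RatFunc ℂ) q ≠ 0 := RatFunc.algebraMap_ne_zero hq
  have hd : algebraMap ℂ[X] (RatFunc ℂ) R.denom ≠ 0 := RatFunc.algebraMap_ne_zero R.denom_ne_zero
  have h2 : algebraMap ℂ[X] (RatFunc ℂ) R.num / algebraMap ℂ[X] (RatFunc ℂ) R.denom =
      algebraMap ℂ[X] (RatFunc ℂ) p / algebraMap ℂ[X] (RatFunc ℂ) q := h1.trans hR
  rw [div_eq_div_iff hd hq', ← map_mul, ← map_mul] at h2
  exact RatFunc.algebraMap_injective ℂ h2

theorem not_isPole {R : RatFunc ℂ} {p q : ℂ[X]}
    (hR : R = algebraMap ℂ[X] (RatFunc ℂ) p / algebraMap ℂ[X] (RatFunc ℂ) q) {z : ℂ}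
    (hz : q.eval z ≠ 0) : ¬ IsPole R z := by
  intro h
  have h1 : R.denom ∣ q := by
    rw [hR]
    exact RatFunc.denom_div_dvd p q
  obtain ⟨s, hs⟩ := h1
  apply hz
  rw [hs, eval_mul, show R.denom.eval z = 0 from h, zero_mul]

theorem value_eq {R : RatFunc ℂ} {p q : ℂ[X]}
    (hR : R = algebraMap ℂ[X] (RatFunc ℂ) p / algebraMap ℂ[X] (RatFunc ℂ) q) {z : ℂ}
    (hz : q.eval z ≠ 0) : value R z = p.eval z / q.eval z := by
  have hq : q ≠ 0 := by
    rintro rfl
    exact hz (by simp)
  have h1 := congrArg (Polynomial.eval z) (cross hq hR)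
  rw [eval_mul, eval_mul] at h1
  have h2 : R.denom.eval z ≠ 0 := not_isPole hR hz
  rw [value, div_eq_div_iff h2 hz]
  exact h1

theorem deriv_value {R : RatFunc ℂ} {p q : ℂ[X]}
    (hR : R = algebraMap ℂ[X] (RatFunc ℂ) p / algebraMap ℂ[X] (RatFunc ℂ) q) {z : ℂ}
    (hz : q.eval z ≠ 0) : deriv (value R) z =
      ((derivative p).eval z * q.eval z - p.eval z * (derivative q).eval z) / q.eval z ^ 2 := by
  have h1 : value R =ᶠ[𝓝 z] fun w => p.eval w / q.eval w := by
    filter_upwards [(isOpen_ne q).mem_nhds hz] with w hw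
    exact value_eq hR hw
  rw [h1.deriv_eq]
  exact ((p.hasDerivAt z).div (q.hasDerivAt z) hz).deriv

theorem ratR_eq (a : ℂ) {P Q : ℂ[X]} (hD : Q * P + derivative P ≠ 0) :
    ratR a P Q = algebraMap ℂ[X] (RatFunc ℂ) (C a * (Q * P + derivative P + P)) /
      algebraMap ℂ[X] (RatFunc ℂ) (Q * P + derivative P) := by
  have hD' : algebraMap ℂ[X] (RatFunc ℂ) (Q * P + derivative P) ≠ 0 :=
    RatFunc.algebraMap_ne_zero hD
  rw [ratR, eq_div_iff hD', map_mul, map_add _ (Q * P + derivative P) P, RatFunc.algebraMap_C]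
  field_simp

/-- The case of a constant `P`. -/
theorem exists_root_const {Q : ℂ[X]} (hQ : derivative Q ≠ 0) :
    ∃ z : ℂ, Q.eval z ≠ 0 ∧ (Q ^ 2 + derivative Q).eval z = 0 := by
  by_contra hcon
  push Not at hcon
  set T := Q ^ 2 + derivative Q with hT
  have hQ0 : Q ≠ 0 := by
    rintro rfl
    exact hQ (by simp)
  have hdQ : (derivative Q).degree < (Q ^ 2).degree := by
    refine (degree_derivative_lt hQ0).trans_le ?_
    rw [pow_two, degree_mul]
    exact le_add_of_nonneg_left (zero_le_degree_iff.mpr hQ0)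
  have hTdeg : T.degree = (Q ^ 2).degree := degree_add_eq_left_of_degree_lt hdQ
  have hT0 : T ≠ 0 := by
    intro h
    rw [h, degree_zero] at hTdeg
    exact (degree_ne_bot.mpr (pow_ne_zero 2 hQ0)) hTdeg.symm
  have hdvd : T ∣ derivative Q := by
    refine (IsAlgClosed.splits T).dvd_of_roots_le_roots hT0 ?_
    rw [Multiset.le_iff_count]
    intro z
    rw [count_roots, count_roots]
    by_cases hz : T.eval z = 0
    · have hQz : Q.eval z = 0 := by
        by_contra h
        exact hcon z h hz
      have hroot : Q.IsRoot z := hQz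
      rw [derivative_rootMultiplicity_of_root hroot]
      by_contra hlt
      push Not at hlt
      set k := Q.rootMultiplicity z with hk
      have hkpos : 0 < k := (rootMultiplicity_pos hQ0).mpr hroot
      have h1 : (X - C z) ^ k ∣ T := by
        rw [← le_rootMultiplicity_iff hT0]
        omega
      have h2 : (X - C z) ^ k ∣ Q ^ 2 := by
        have h3 : (X - C z) ^ k ∣ Q := pow_rootMultiplicity_dvd Q z
        exact h3.trans (dvd_pow_self Q two_ne_zero)
      have h3 : (X - C z) ^ k ∣ derivative Q := by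
        have := dvd_sub h1 h2
        rwa [hT, add_sub_cancel_left] at this
      rw [← le_rootMultiplicity_iff hQ, derivative_rootMultiplicity_of_root hroot] at h3
      omega
    · have : T.rootMultiplicity z = 0 := rootMultiplicity_eq_zero hz
      rw [this]
      exact Nat.zero_le _
  have h1 := degree_le_of_dvd hdvd hQ
  rw [hTdeg] at h1
  exact absurd h1 (not_le.mpr hdQ)

theorem exists_bad {P Q : ℂ[X]} (hP : SimpleZeros P) (hQ : Q ≠ 0)
    (hnc : ¬ (derivative P = 0 ∧ derivative Q = 0)) :
    ∃ z : ℂ, (dd P Q).eval z ≠ 0 ∧ P.eval z ≠ 0 ∧ deriv (nmap P (dd P Q)) z = 0 := by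
  have hP0 := hP.ne_zero
  by_cases hroot : ∃ z₁ : ℂ, P.eval z₁ = 0
  · obtain ⟨z₁, hz₁⟩ := hroot
    exact exists_free_critical hP0 hQ hP hz₁
  · push Not at hroot
    have hdeg : P.degree = 0 := by
      by_contra h
      obtain ⟨z, hz⟩ := IsAlgClosed.exists_root P h
      exact hroot z hz
    obtain ⟨c, hc⟩ : ∃ c : ℂ, P = C c := ⟨_, eq_C_of_degree_eq_zero hdeg⟩
    have hc0 : c ≠ 0 := by
      rintro rfl
      exact hP0 (by rw [hc, C_0])
    have hdP : derivative P = 0 := by rw [hc, derivative_C]
    have hdQ : derivative Q ≠ 0 := fun h => hnc ⟨hdP, h⟩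
    obtain ⟨z, hz1, hz2⟩ := exists_root_const hdQ
    have hdd : dd P Q = Q * C c := by rw [dd, hdP, hc, add_zero]
    have hD : (dd P Q).eval z ≠ 0 := by
      rw [hdd, eval_mul, eval_C]
      exact mul_ne_zero hz1 hc0
    refine ⟨z, hD, hroot z, ?_⟩
    rw [(hasStrictDerivAt_nmap P (dd P Q) hD).hasDerivAt.deriv]
    have h3 : (derivative (dd P Q)).eval z = (derivative Q).eval z * c := by
      rw [hdd, derivative_mul, derivative_C, mul_zero, add_zero, eval_mul, eval_C]
    have h4 : (dd P Q).eval z = Q.eval z * c := by rw [hdd, eval_mul, eval_C]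
    rw [h3, h4, hdP, eval_zero, hc, eval_C]
    rw [eval_add, eval_pow] at hz2
    have h5 : (derivative Q).eval z = -(Q.eval z) ^ 2 := by linear_combination hz2
    rw [h5]
    field_simp
    ring

/-- The negative answer. -/
theorem not_shares {a : ℂ} (ha : a ≠ 0) {P Q : ℂ[X]} (hP : SimpleZeros P) (hQ : Q ≠ 0)
    (hR : NonConst (ratR a P Q)) : ¬ SharesInPlane (ratR a P Q) a := by
  intro hsh
  have hP0 := hP.ne_zero
  have hD0 : Q * P + derivative P ≠ 0 := dd_ne_zero hP0 hQ
  have hrep := ratR_eq a hD0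
  have hnc : ¬ (derivative P = 0 ∧ derivative Q = 0) := by
    rintro ⟨h1, h2⟩
    have hPc : P = C (P.coeff 0) := eq_C_of_derivative_eq_zero h1
    have hQc : Q = C (Q.coeff 0) := eq_C_of_derivative_eq_zero h2
    set p := P.coeff 0
    set q := Q.coeff 0
    have hp : p ≠ 0 := by
      rintro h
      exact hP0 (by rw [hPc, h, C_0])
    have hq : q ≠ 0 := by
      rintro h
      exact hQ (by rw [hQc, h, C_0])
    apply hR (a * (1 + p / (q * p)))
    rw [ratR, h1, add_zero, hPc, hQc, ← C_mul, RatFunc.algebraMap_C, RatFunc.algebraMap_C]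
    simp only [map_mul, map_add, map_one, map_div₀]
  obtain ⟨z, hz1, hz2, hz3⟩ := exists_bad hP hQ hnc
  rw [(hasStrictDerivAt_nmap P (dd P Q) hz1).hasDerivAt.deriv] at hz3
  have hdd : dd P Q = Q * P + derivative P := rfl
  rw [← hdd] at hrep
  generalize dd P Q = E at hrep hz1 hz3
  have hz1' : E.eval z ≠ 0 := hz1
  have hdv := deriv_value hrep hz1'
  have hval := value_eq hrep hz1'
  have h1 : deriv (value (ratR a P Q)) z = a := by
    rw [hdv]
    rw [derivative_mul, derivative_C, zero_mul, zero_add, derivative_add, eval_mul, eval_C,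
      eval_mul, eval_C, eval_add, eval_add]
    have h2 : ((derivative P).eval z * E.eval z - P.eval z * (derivative E).eval z) /
        E.eval z ^ 2 = 1 := by
      linear_combination -hz3
    rw [div_eq_iff (pow_ne_zero 2 hz1')] at h2 ⊢
    linear_combination a * h2
  have h2 := (hsh z).mpr ⟨not_isPole hrep hz1', h1⟩
  rw [hval, div_eq_iff hz1', eval_mul, eval_C, eval_add] at h2
  have h3 := h2.2
  apply hz2
  have h4 : a * P.eval z = 0 := by linear_combination h3
  exact (mul_eq_zero.mp h4).resolve_left ha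

/-- Classification: sharing forces `R = a (1 + P / P')`. -/
theorem classify {a : ℂ} (ha : a ≠ 0) {R : RatFunc ℂ} (hR : NonConst R)
    (hsh : SharesInPlane R a) : ∃ P : ℂ[X], SimpleZeros P ∧ R = ratR a P 0 := by
  set n := R.num with hn
  set d := R.denom with hd
  have hd0 : d ≠ 0 := R.denom_ne_zero
  set p := n - C a * d with hp
  set q := C a * d with hq
  have hq0 : q ≠ 0 := mul_ne_zero (C_ne_zero.mpr ha) hd0
  have hcop : IsCoprime n d := R.isCoprime_num_denom
  have hRnd : R = algebraMap ℂ[X] (RatFunc ℂ) n / algebraMap ℂ[X] (RatFunc ℂ) d :=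
    R.num_div_denom.symm
  have hp0 : p ≠ 0 := by
    intro h
    apply hR a
    have h1 : n = C a * d := sub_eq_zero.mp h
    rw [hRnd, h1, map_mul, RatFunc.algebraMap_C,
      mul_div_cancel_right₀ _ (RatFunc.algebraMap_ne_zero hd0)]
  have hkey : ∀ z : ℂ, p.eval z = 0 → (derivative p).eval z = q.eval z ∧ q.eval z ≠ 0 := by
    intro z hz
    have h1 : n.eval z = a * d.eval z := by
      rw [hp, eval_sub, eval_mul, eval_C] at hz
      linear_combination hz
    have h2 : d.eval z ≠ 0 := by
      intro h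
      obtain ⟨u, v, huv⟩ := hcop
      have h3 := congrArg (Polynomial.eval z) huv
      rw [eval_add, eval_mul, eval_mul, h1, h] at h3
      simp at h3
    have h3 : value R z = a := by
      rw [value_eq hRnd h2, h1, mul_div_cancel_right₀ _ h2]
    have h4 := ((hsh z).mp ⟨not_isPole hRnd h2, h3⟩).2
    rw [deriv_value hRnd h2, div_eq_iff (pow_ne_zero 2 h2), h1] at h4
    have h5 : (derivative n).eval z - a * (derivative d).eval z = a * d.eval z := by
      have : d.eval z * ((derivative n).eval z - a * (derivative d).eval z - a * d.eval z) = 0 := by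
        linear_combination h4
      have := (mul_eq_zero.mp this).resolve_left h2
      linear_combination this
    constructor
    · rw [hp, hq, derivative_sub, derivative_mul, derivative_C, zero_mul, zero_add, eval_sub,
        eval_mul, eval_C, eval_mul, eval_C]
      exact h5
    · rw [hq, eval_mul, eval_C]
      exact mul_ne_zero ha h2
  have hsimple : SimpleZeros p := by
    intro z hz
    rw [(hkey z hz).1]
    exact (hkey z hz).2
  have hdvd : p ∣ q - derivative p := by
    by_cases hg : q - derivative p = 0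
    · rw [hg]; exact dvd_zero _
    refine (IsAlgClosed.splits p).dvd_of_roots_le_roots hp0 ?_
    rw [Multiset.le_iff_count]
    intro z
    rw [count_roots, count_roots]
    by_cases hz : p.eval z = 0
    · have h1 : p.rootMultiplicity z ≤ 1 := by
        by_contra hlt
        push Not at hlt
        have h2 : p.IsRoot z := hz
        have h3 := derivative_rootMultiplicity_of_root h2
        have h4 : 0 < (derivative p).rootMultiplicity z := by omega
        have h5 : (derivative p).IsRoot z := by
          by_contra h6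
          rw [rootMultiplicity_eq_zero h6] at h4
          exact lt_irrefl _ h4
        exact hsimple z hz h5
      have h2 : 0 < (q - derivative p).rootMultiplicity z := by
        rw [rootMultiplicity_pos hg, IsRoot.def, eval_sub, (hkey z hz).1, sub_self]
      omega
    · rw [rootMultiplicity_eq_zero hz]
      exact Nat.zero_le _
  obtain ⟨Q, hQ⟩ := hdvd
  have hqQ : q = Q * p + derivative p := by linear_combination hQ
  have hRQ : R = ratR a p Q := by
    rw [ratR_eq a (by rw [← hqQ]; exact hq0), ← hqQ, hRnd,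
      div_eq_div_iff (RatFunc.algebraMap_ne_zero hd0) (RatFunc.algebraMap_ne_zero hq0),
      ← map_mul, ← map_mul]
    congr 1
    rw [hp, hq]
    ring
  by_cases hQ0 : Q = 0
  · exact ⟨p, hsimple, by rw [hRQ, hQ0]⟩
  · exfalso
    rw [hRQ] at hR hsh
    exact not_shares ha hsimple hQ0 hR hsh

end Q196.NM
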