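import Pool.Agent.Q196.NM.Lift

/-!
# The parabolic point at infinity: an attracting half plane
-/

set_option autoImplicit false

open Polynomial Topology Set Filter Bornology Asymptotics

namespace Q196.NM

/-- `D = Q P + P'` -/
noncomputable def dd (P Q : ℂ[X]) : ℂ[X] := Q * P + derivative P

theorem degree_der_lt {P Q : ℂ[X]} (hP : P ≠ 0) (hQ : Q ≠ 0) :
    (derivative P).degree < (Q * P).degree := by
  refine (degree_derivative_lt hP).trans_le ?_
  rw [degree_mul]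
  exact le_add_of_nonneg_left (zero_le_degree_iff.mpr hQ)

theorem dd_degree {P Q : ℂ[X]} (hP : P ≠ 0) (hQ : Q ≠ 0) :
    (dd P Q).degree = Q.degree + P.degree := by
  rw [dd, degree_add_eq_left_of_degree_lt (degree_der_lt hP hQ), degree_mul]

theorem dd_ne_zero {P Q : ℂ[X]} (hP : P ≠ 0) (hQ : Q ≠ 0) : dd P Q ≠ 0 := by
  intro h
  have h1 := dd_degree hP hQ
  rw [h, degree_zero] at h1
  have h2 : Q.degree + P.degree ≠ ⊥ := by
    rw [← degree_mul]
    exact degree_ne_bot.mpr (mul_ne_zero hQ hP)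
  exact h2 h1.symm

theorem dd_natDegree {P Q : ℂ[X]} (hP : P ≠ 0) (hQ : Q ≠ 0) :
    (dd P Q).natDegree = Q.natDegree + P.natDegree := by
  rw [dd, natDegree_add_eq_left_of_degree_lt (degree_der_lt hP hQ), natDegree_mul hQ hP]

theorem dd_leadingCoeff {P Q : ℂ[X]} (hP : P ≠ 0) (hQ : Q ≠ 0) :
    (dd P Q).leadingCoeff = Q.leadingCoeff * P.leadingCoeff := by
  rw [dd, leadingCoeff_add_of_degree_lt' (degree_der_lt hP hQ), leadingCoeff_mul]

theorem tendsto_main {P Q : ℂ[X]} (hP : P ≠ 0) (hQ : Q ≠ 0) :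
    Tendsto (fun z : ℂ => z ^ Q.natDegree * (P.eval z / (dd P Q).eval z)) (cobounded ℂ)
      (𝓝 (1 / Q.leadingCoeff)) := by
  have h1 := P.isEquivalent_cobounded_leading_monomial
  have h2 := (dd P Q).isEquivalent_cobounded_leading_monomial
  have h3 := (IsEquivalent.refl (u := fun z : ℂ => z ^ Q.natDegree) (l := cobounded ℂ)).mul
    (h1.div h2)
  have h4 : (fun z : ℂ => z ^ Q.natDegree) * ((fun z : ℂ => P.leadingCoeff * z ^ P.natDegree) /
      (fun z : ℂ => (dd P Q).leadingCoeff * z ^ (dd P Q).natDegree)) =ᶠ[cobounded ℂ]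
        fun _ => 1 / Q.leadingCoeff := by
    filter_upwards [eventually_ne_cobounded (0 : ℂ)] with z hz
    simp only [Pi.mul_apply, Pi.div_apply]
    rw [dd_natDegree hP hQ, dd_leadingCoeff hP hQ]
    have h5 : P.leadingCoeff ≠ 0 := leadingCoeff_ne_zero.mpr hP
    have h6 : Q.leadingCoeff ≠ 0 := leadingCoeff_ne_zero.mpr hQ
    rw [pow_add]
    field_simp
  have h5 := h3.tendsto_nhds_iff (c := 1 / Q.leadingCoeff)
  have h6 : Tendsto ((fun z : ℂ => z ^ Q.natDegree) *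
      ((fun z : ℂ => P.leadingCoeff * z ^ P.natDegree) /
      (fun z : ℂ => (dd P Q).leadingCoeff * z ^ (dd P Q).natDegree))) (cobounded ℂ)
      (𝓝 (1 / Q.leadingCoeff)) := by
    rw [tendsto_congr' h4]
    exact tendsto_const_nhds
  exact h5.mpr h6

/-- `δ(z) = P(z) / (D(z) z)` -/
noncomputable def del (P Q : ℂ[X]) (z : ℂ) : ℂ := P.eval z / (dd P Q).eval z / z

theorem nmap_eq_mul (P Q : ℂ[X]) {z : ℂ} (hz : z ≠ 0) :
    nmap P (dd P Q) z = z * (1 - del P Q z) := by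
  simp only [nmap, del]
  field_simp

theorem tendsto_pow_del {P Q : ℂ[X]} (hP : P ≠ 0) (hQ : Q ≠ 0) :
    Tendsto (fun z : ℂ => z ^ (Q.natDegree + 1) * del P Q z) (cobounded ℂ)
      (𝓝 (1 / Q.leadingCoeff)) := by
  refine (tendsto_main hP hQ).congr' ?_
  filter_upwards [eventually_ne_cobounded (0 : ℂ)] with z hz
  simp only [del]
  field_simp
  ring

theorem tendsto_del {P Q : ℂ[X]} (hP : P ≠ 0) (hQ : Q ≠ 0) :
    Tendsto (del P Q) (cobounded ℂ) (𝓝 0) := by
  have h1 := tendsto_pow_del hP hQ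
  have h2 : Tendsto (fun z : ℂ => (z ^ (Q.natDegree + 1))⁻¹) (cobounded ℂ) (𝓝 0) := by
    refine tendsto_inv₀_cobounded.comp ?_
    rw [← tendsto_norm_atTop_iff_cobounded]
    simp only [norm_pow]
    exact (tendsto_pow_atTop (Nat.succ_ne_zero _)).comp tendsto_norm_cobounded_atTop
  have h3 := h2.mul h1
  rw [zero_mul] at h3
  refine h3.congr' ?_
  filter_upwards [eventually_ne_cobounded (0 : ℂ)] with z hz
  field_simp

/-- the coordinate `A(z) = - c z ^ (m+1) / (m+1)` -/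
noncomputable def aco (Q : ℂ[X]) (z : ℂ) : ℂ :=
  -(Q.leadingCoeff / ((Q.natDegree : ℂ) + 1)) * z ^ (Q.natDegree + 1)

theorem tendsto_aco {P Q : ℂ[X]} (hP : P ≠ 0) (hQ : Q ≠ 0) :
    Tendsto (fun z : ℂ => aco Q z * (1 - del P Q z) ^ (Q.natDegree + 1) - aco Q z)
      (cobounded ℂ) (𝓝 1) := by
  set m := Q.natDegree with hm
  have hc : Q.leadingCoeff ≠ 0 := leadingCoeff_ne_zero.mpr hQ
  have hm1 : ((m : ℂ) + 1) ≠ 0 := by exact_mod_cast Nat.succ_ne_zero m
  have h1 := tendsto_pow_del hP hQ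
  have h2 := tendsto_del hP hQ
  have h3 : Tendsto (fun z : ℂ => ∑ i ∈ Finset.range (m + 1), (1 - del P Q z) ^ i) (cobounded ℂ)
      (𝓝 (∑ i ∈ Finset.range (m + 1), (1 - (0 : ℂ)) ^ i)) :=
    tendsto_finsetSum _ fun i _ => (tendsto_const_nhds.sub h2).pow i
  have h4 := ((tendsto_const_nhds (x := Q.leadingCoeff / ((m : ℂ) + 1))).mul (h1.mul h3))
  have h5 : Q.leadingCoeff / ((m : ℂ) + 1) * (1 / Q.leadingCoeff *
      ∑ i ∈ Finset.range (m + 1), (1 - (0 : ℂ)) ^ i) = 1 := by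
    simp only [sub_zero, one_pow, Finset.sum_const, Finset.card_range, nsmul_eq_mul, mul_one]
    push_cast
    field_simp
  rw [h5] at h4
  refine h4.congr fun z => ?_
  have h6 := mul_geom_sum (1 - del P Q z) (m + 1)
  have h7 : (1 - del P Q z) ^ (m + 1) = 1 - del P Q z *
      ∑ i ∈ Finset.range (m + 1), (1 - del P Q z) ^ i := by
    linear_combination -h6
  simp only [aco, ← hm]
  rw [h7]
  ring

/-- the good region near infinity -/
theorem exists_region {P Q : ℂ[X]} (hP : P ≠ 0) (hQ : Q ≠ 0) (B : ℝ) :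
    ∃ R : ℝ, 0 < R ∧ ∀ z : ℂ, R ≤ ‖z‖ → B < ‖z‖ ∧ z ≠ 0 ∧ P.eval z ≠ 0 ∧
      (dd P Q).eval z ≠ 0 ∧ 1 - del P Q z ≠ 0 ∧
      ‖aco Q z * (1 - del P Q z) ^ (Q.natDegree + 1) - aco Q z - 1‖ ≤ 1 / 2 ∧
      ‖((Q.natDegree : ℂ) + 1) * Complex.log (1 - del P Q z)‖ < 1 := by
  have hroot : ∀ p : ℂ[X], p ≠ 0 → ∀ᶠ z in cobounded ℂ, p.eval z ≠ 0 := by
    intro p hp
    have h1 : (p.rootSet ℂ).Finite := rootSet_finite p ℂ
    have h2 : ∀ᶠ z in cobounded ℂ, z ∉ p.rootSet ℂ := by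
      have h3 : IsBounded (p.rootSet ℂ) := h1.isBounded
      exact h3
    filter_upwards [h2] with z hz h
    exact hz (by rw [mem_rootSet]; exact ⟨hp, by simpa using h⟩)
  have h1 : ∀ᶠ z in cobounded ℂ, B < ‖z‖ :=
    tendsto_norm_cobounded_atTop.eventually_gt_atTop B
  have h2 := eventually_ne_cobounded (0 : ℂ)
  have h3 := hroot P hP
  have h4 := hroot _ (dd_ne_zero hP hQ)
  have hd := tendsto_del hP hQ
  have h5 : ∀ᶠ z in cobounded ℂ, 1 - del P Q z ≠ 0 := by
    have : Tendsto (fun z => 1 - del P Q z) (cobounded ℂ) (𝓝 (1 - 0)) :=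
      tendsto_const_nhds.sub hd
    rw [sub_zero] at this
    exact this.eventually_ne one_ne_zero
  have h6 : ∀ᶠ z in cobounded ℂ,
      ‖aco Q z * (1 - del P Q z) ^ (Q.natDegree + 1) - aco Q z - 1‖ ≤ 1 / 2 := by
    have h := tendsto_aco hP hQ
    have h' : Tendsto (fun z : ℂ => ‖aco Q z * (1 - del P Q z) ^ (Q.natDegree + 1) - aco Q z - 1‖)
        (cobounded ℂ) (𝓝 ‖(1 : ℂ) - 1‖) := (h.sub tendsto_const_nhds).norm
    rw [sub_self, norm_zero] at h'
    exact h'.eventually_le_const (by norm_num)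
  have h7 : ∀ᶠ z in cobounded ℂ,
      ‖((Q.natDegree : ℂ) + 1) * Complex.log (1 - del P Q z)‖ < 1 := by
    have h : Tendsto (fun z => Complex.log (1 - del P Q z)) (cobounded ℂ)
        (𝓝 (Complex.log (1 - 0))) := by
      refine Tendsto.comp (g := Complex.log) ?_ (tendsto_const_nhds.sub hd)
      exact (continuousAt_clog (by simp)).tendsto
    have h' := ((tendsto_const_nhds (x := (Q.natDegree : ℂ) + 1)).mul h).norm
    simp only [sub_zero, Complex.log_one, mul_zero, norm_zero] at h'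
    exact h'.eventually_lt_const one_pos
  have hall := h1.and (h2.and (h3.and (h4.and (h5.and (h6.and h7)))))
  obtain ⟨R, -, hR⟩ := (Metric.hasBasis_cobounded_compl_closedBall (0 : ℂ)).eventually_iff.mp hall
  refine ⟨max R 0 + 1, by positivity, fun z hz => ?_⟩
  have hz' : z ∈ (Metric.closedBall (0 : ℂ) R)ᶜ := by
    simp only [mem_compl_iff, Metric.mem_closedBall, dist_zero_right, not_le]
    have := le_max_left R 0
    linarith
  exact hR hz'

/-- the parametrisation `ψ(w) = β exp (log w / (m+1))` -/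
noncomputable def psi (β : ℂ) (m : ℕ) (w : ℂ) : ℂ := β * Complex.exp (Complex.log w / ((m : ℂ) + 1))

/-- the map on the half plane -/
noncomputable def phi (P Q : ℂ[X]) (β : ℂ) (w : ℂ) : ℂ :=
  w * (1 - del P Q (psi β Q.natDegree w)) ^ (Q.natDegree + 1)

theorem psi_pow (β : ℂ) (m : ℕ) {w : ℂ} (hw : w ≠ 0) : psi β m w ^ (m + 1) = β ^ (m + 1) * w := by
  have hm1 : ((m : ℂ) + 1) ≠ 0 := by exact_mod_cast Nat.succ_ne_zero m
  rw [psi, mul_pow, ← Complex.exp_nat_mul]
  congr 1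
  push_cast
  rw [mul_div_cancel₀ _ hm1, Complex.exp_log hw]

theorem psi_ne_zero {β : ℂ} (hβ : β ≠ 0) (m : ℕ) (w : ℂ) : psi β m w ≠ 0 :=
  mul_ne_zero hβ (Complex.exp_ne_zero _)

theorem differentiableOn_psi (β : ℂ) (m : ℕ) {R₁ : ℝ} (hR₁ : 0 < R₁) :
    DifferentiableOn ℂ (psi β m) {w : ℂ | R₁ < w.re} := by
  intro w hw
  have h1 : w ∈ Complex.slitPlane := Or.inl (hR₁.trans hw)
  refine DifferentiableAt.differentiableWithinAt ?_
  exact (((Complex.differentiableAt_log h1).div_const _).cexp).const_mul β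

/-- Fatou type parametrisation of a petal. -/
theorem exists_petal {P Q : ℂ[X]} (hP : P ≠ 0) (hQ : Q ≠ 0) (B : ℝ) :
    ∃ (R₁ : ℝ) (ψ φ : ℂ → ℂ), 0 < R₁ ∧
      DifferentiableOn ℂ ψ {w : ℂ | R₁ < w.re} ∧
      ContinuousOn φ {w : ℂ | R₁ < w.re} ∧
      (∀ w : ℂ, R₁ < w.re → w.re + 1 / 2 ≤ (φ w).re) ∧
      (∀ w : ℂ, R₁ < w.re → ‖φ w - w‖ ≤ 3 / 2) ∧
      (∀ w : ℂ, R₁ < w.re → B < ‖ψ w‖ ∧ P.eval (ψ w) ≠ 0 ∧ (dd P Q).eval (ψ w) ≠ 0) ∧
      (∀ w : ℂ, R₁ < w.re → nmap P (dd P Q) (ψ w) = ψ (φ w)) := by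
  obtain ⟨R, hR0, hR⟩ := exists_region hP hQ B
  set m := Q.natDegree with hm
  have hc : Q.leadingCoeff ≠ 0 := leadingCoeff_ne_zero.mpr hQ
  have hm1 : ((m : ℂ) + 1) ≠ 0 := by exact_mod_cast Nat.succ_ne_zero m
  obtain ⟨β, hβ⟩ := IsAlgClosed.exists_pow_nat_eq (-(((m : ℂ) + 1) / Q.leadingCoeff))
    (Nat.succ_pos m)
  have hβ0 : β ≠ 0 := by
    rintro rfl
    rw [Nat.succ_eq_add_one, zero_pow (Nat.succ_ne_zero m)] at hβ
    have : ((m : ℂ) + 1) / Q.leadingCoeff ≠ 0 := div_ne_zero hm1 hc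
    exact this (by linear_combination hβ)
  set R₁ : ℝ := max 1 ((R / ‖β‖) ^ (m + 1)) with hR₁
  have hR₁0 : 0 < R₁ := lt_of_lt_of_le one_pos (le_max_left _ _)
  have hβn : 0 < ‖β‖ := norm_pos_iff.mpr hβ0
  have hw0 : ∀ w : ℂ, R₁ < w.re → w ≠ 0 := by
    rintro w hw rfl
    simp only [Complex.zero_re] at hw
    linarith
  have hbig : ∀ w : ℂ, R₁ < w.re → R ≤ ‖psi β m w‖ := by
    intro w hw
    have h1 := congrArg norm (psi_pow β m (hw0 w hw))
    rw [norm_pow, norm_mul, norm_pow] at h1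
    have h2 : R ^ (m + 1) ≤ ‖psi β m w‖ ^ (m + 1) := by
      rw [h1]
      have h3 : (R / ‖β‖) ^ (m + 1) ≤ ‖w‖ :=
        (le_max_right _ _).trans (hw.le.trans (Complex.re_le_norm w))
      rw [div_pow, div_le_iff₀ (by positivity)] at h3
      linarith
    exact le_of_pow_le_pow_left₀ (Nat.succ_ne_zero m) (norm_nonneg _) h2
  have hA : ∀ w : ℂ, R₁ < w.re → aco Q (psi β m w) = w := by
    intro w hw
    rw [aco, ← hm, psi_pow β m (hw0 w hw), ← Nat.succ_eq_add_one, hβ]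
    field_simp
  have hphi : ∀ w : ℂ, R₁ < w.re → ‖phi P Q β w - w - 1‖ ≤ 1 / 2 := by
    intro w hw
    have h1 := (hR _ (hbig w hw)).2.2.2.2.2.1
    rw [hA w hw] at h1
    exact h1
  refine ⟨R₁, psi β m, phi P Q β, hR₁0, differentiableOn_psi β m hR₁0, ?_, ?_, ?_, ?_, ?_⟩
  · -- continuity of `φ`
    intro w hw
    refine ContinuousAt.continuousWithinAt ?_
    have h1 : ContinuousAt (psi β m) w :=
      ((differentiableOn_psi β m hR₁0).differentiableAt
        ((isOpen_lt continuous_const Complex.continuous_re).mem_nhds hw)).continuousAt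
    have h2 := (hR _ (hbig w hw))
    have h3 : ContinuousAt (del P Q) (psi β m w) := by
      unfold del
      exact ((P.continuous.continuousAt).div ((dd P Q).continuous.continuousAt) h2.2.2.2.1).div
        continuousAt_id h2.2.1
    have h4 : ContinuousAt (fun w => del P Q (psi β m w)) w :=
      ContinuousAt.comp (f := psi β m) (g := del P Q) h3 h1
    exact continuousAt_id.mul ((continuousAt_const.sub h4).pow _)
  · intro w hw
    have h1 := hphi w hw
    have h2 := (Complex.abs_re_le_norm _).trans h1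
    rw [Complex.sub_re, Complex.sub_re, Complex.one_re, abs_le] at h2
    linarith [h2.1]
  · intro w hw
    have h1 := hphi w hw
    calc ‖phi P Q β w - w‖ = ‖(phi P Q β w - w - 1) + 1‖ := by ring_nf
      _ ≤ ‖phi P Q β w - w - 1‖ + ‖(1 : ℂ)‖ := norm_add_le _ _
      _ ≤ 1 / 2 + 1 := by rw [norm_one]; linarith
      _ = 3 / 2 := by norm_num
  · intro w hw
    have h2 := (hR _ (hbig w hw))
    exact ⟨h2.1, h2.2.2.1, h2.2.2.2.1⟩
  · intro w hw
    have h2 := (hR _ (hbig w hw))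
    rw [nmap_eq_mul P Q h2.2.1]
    set d := 1 - del P Q (psi β m w) with hd
    have hd0 : d ≠ 0 := h2.2.2.2.2.1
    have hw' := hw0 w hw
    have hre : 0 < w.re := hR₁0.trans hw
    have hlog : Complex.log (phi P Q β w) = Complex.log w + ((m : ℂ) + 1) * Complex.log d := by
      have h3 : phi P Q β w = Complex.exp (Complex.log w + ((m : ℂ) + 1) * Complex.log d) := by
        rw [Complex.exp_add, Complex.exp_log hw']
        have h4 : ((m : ℂ) + 1) * Complex.log d = ((m + 1 : ℕ) : ℂ) * Complex.log d := by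
          push_cast; ring
        rw [h4, Complex.exp_nat_mul, Complex.exp_log hd0]
        rfl
      rw [h3]
      have h5 : |(Complex.log w).im| < Real.pi / 2 := by
        rw [Complex.log_im]
        exact Complex.abs_arg_lt_pi_div_two_iff.mpr (Or.inl hre)
      have h6 : |(((m : ℂ) + 1) * Complex.log d).im| < 1 :=
        (Complex.abs_im_le_norm _).trans_lt h2.2.2.2.2.2.2
      have hpi := Real.pi_gt_three
      rw [abs_lt] at h5 h6
      refine Complex.log_exp ?_ ?_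
      · rw [Complex.add_im]; linarith [h5.1, h6.1]
      · rw [Complex.add_im]; linarith [h5.2, h6.2]
    rw [psi, psi, hlog, add_div, mul_div_cancel_left₀ _ hm1, Complex.exp_add, Complex.exp_log hd0]
    ring

end Q196.NM
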